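import Pool.Agent.H68.L.R_pool_sql_team_seeded_3997aac3.Q44.BN.Sel
import Pool.Agent.H68.L.R_pool_sql_team_seeded_3997aac3.Q44.BM.Rec
import Pool.Agent.H68.L.R_pool_sql_team_seeded_3997aac3.Q44.TK.Grp
import Pool.Agent.H68.L.R_pool_sql_team_seeded_3997aac3.Q44.TI.Cls

/-!
# The characters of the classes modulo `m`
-/

set_option autoImplicit false

open scoped Classical

namespace Q44.BN

open Finset
open Pool.Agent.Y703.CQ (nr)
open Q44.TK (Fm hF hF_pos hF_mul hF_sum hF_eq Fm_two mkF mkF_mul mkF_surj)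
open Q44.BM (vm)
open Q44.TI (Loc pd ch ch_zero jac_mod cop_mod padic_sq padic_sq2)

noncomputable instance instModFm (m : ℕ) : Module (ZMod 2) (Fm m) :=
  AddCommGroup.zmodModule fun x => by rw [two_nsmul]; exact Fm_two x

/-- the value of a symbol -/
def jv (z : ℤ) (n : ℕ) : ZMod 2 := if jacobiSym z n = 1 then 0 else 1

theorem jac_pm {z : ℤ} {m n : ℕ} (hz : 4 * z.natAbs ∣ m) (hn : n.Coprime m) :
    jacobiSym z n = 1 ∨ jacobiSym z n = -1 := by
  refine jacobiSym.eq_one_or_neg_one ?_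
  have h1 : z.natAbs ∣ m := (Dvd.intro_left 4 rfl).trans hz
  have h2 : n.Coprime z.natAbs := Nat.Coprime.coprime_dvd_right h1 hn
  unfold Int.gcd
  rw [Int.natAbs_natCast]
  exact h2.symm

theorem ne_zero_of_cop {m n : ℕ} (hm : 4 ∣ m) (hn : n.Coprime m) : n ≠ 0 := by
  rintro rfl
  rw [Nat.coprime_zero_left] at hn
  omega

theorem odd_of_cop {m n : ℕ} (hm : 4 ∣ m) (hn : n.Coprime m) : Odd n := by
  rw [← Nat.not_even_iff_odd]
  intro he
  have h1 : 2 ∣ n := he.two_dvd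
  have h2 : 2 ∣ m := (by norm_num : 2 ∣ 4).trans hm
  have := Nat.dvd_gcd h1 h2
  rw [hn] at this
  omega

theorem jv_mul {z : ℤ} {m n n' : ℕ} (hz : 4 * z.natAbs ∣ m) (hn : n.Coprime m)
    (hn' : n'.Coprime m) : jv z (n * n') = jv z n + jv z n' := by
  have h4 : 4 ∣ m := (Dvd.intro _ rfl).trans hz
  unfold jv
  rw [jacobiSym.mul_right' z (ne_zero_of_cop h4 hn) (ne_zero_of_cop h4 hn')]
  rcases jac_pm hz hn with h | h <;> rcases jac_pm hz hn' with h' | h' <;> rw [h, h']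
  · simp
  · norm_num
  · norm_num
  · norm_num
    decide

theorem jv_mod {z : ℤ} {m n : ℕ} (hz : 4 * z.natAbs ∣ m) (hn : n.Coprime m) :
    jv z (n % m) = jv z n := by
  have h4 : 4 ∣ m := (Dvd.intro _ rfl).trans hz
  unfold jv
  rw [jac_mod hz (odd_of_cop h4 hn) (odd_of_cop h4 (cop_mod.2 hn))]

theorem jv_one (z : ℤ) : jv z 1 = 0 := by
  unfold jv
  rw [jacobiSym.one_right, if_pos rfl]

/-- the symbol at a prime -/
theorem jv_prime {z : ℤ} {p : ℕ} (hp : p.Prime) (hz : ((z : ℤ) : ZMod p) ≠ 0) :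
    jv z p = ch ((z : ℤ) : ZMod p) := by
  have : Fact p.Prime := ⟨hp⟩
  unfold jv ch
  rw [← jacobiSym.legendreSym.to_jacobiSym]
  by_cases h : IsSquare ((z : ℤ) : ZMod p)
  · rw [if_pos h, if_pos ((legendreSym.eq_one_iff _ hz).2 h)]
  · rw [if_neg h, if_neg fun h' => h ((legendreSym.eq_one_iff _ hz).1 h')]

theorem exists_jc (m : ℕ) (hm : m ≠ 0) (z : ℤ) (hz : 4 * z.natAbs ∣ m) :
    ∃ φ : Fm m →ₗ[ZMod 2] ZMod 2, ∀ n : ℕ, n.Coprime m → φ (hF m n) = jv z n := by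
  have : NeZero m := ⟨hm⟩
  let θ : (ZMod m)ˣ →* Multiplicative (ZMod 2) :=
    { toFun := fun u => Multiplicative.ofAdd (jv z (u : ZMod m).val)
      map_one' := by
        have h1 : (((1 : (ZMod m)ˣ) : ZMod m).val) = 1 % m := by
          rw [Units.val_one, ← Nat.cast_one, ZMod.val_natCast]
        rw [h1, jv_mod hz (Nat.coprime_one_left m), jv_one]
        rfl
      map_mul' := by
        intro u v
        rw [Units.val_mul, ZMod.val_mul, jv_mod hz (Nat.Coprime.mul_left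
          (ZMod.val_coe_unit_coprime u) (ZMod.val_coe_unit_coprime v)),
          jv_mul hz (ZMod.val_coe_unit_coprime u) (ZMod.val_coe_unit_coprime v)]
        rfl }
  have hθ : ∀ x ∈ (powMonoidHom 2 : (ZMod m)ˣ →* (ZMod m)ˣ).range, θ x = 1 := by
    rintro _ ⟨x, rfl⟩
    rw [powMonoidHom_apply, map_pow, sq]
    have key : ∀ a : ZMod 2, a + a = 0 := by decide
    exact congrArg Multiplicative.ofAdd (key (Multiplicative.toAdd (θ x)))
  let L := QuotientGroup.lift (powMonoidHom 2 : (ZMod m)ˣ →* (ZMod m)ˣ).range θ hθ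
  let φ : Fm m →+ ZMod 2 := AddMonoidHom.mk' (fun x => Multiplicative.toAdd (L (Additive.toMul x)))
    (fun x y => congrArg Multiplicative.toAdd (L.map_mul (Additive.toMul x) (Additive.toMul y)))
  refine ⟨φ.toZModLinearMap 2, fun n hn => ?_⟩
  have h1 : (ZMod.unitOfCoprime n hn : ZMod m).val = n % m := by
    rw [ZMod.coe_unitOfCoprime, ZMod.val_natCast]
  have h2 : φ (hF m n) = jv z ((ZMod.unitOfCoprime n hn : ZMod m).val) := by
    rw [hF_pos hn]
    rfl
  show φ (hF m n) = jv z n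
  rw [h2, h1, jv_mod hz hn]

/-- the character -/
noncomputable def jc (m : ℕ) (z : ℤ) : Fm m →ₗ[ZMod 2] ZMod 2 :=
  if h : m ≠ 0 ∧ 4 * z.natAbs ∣ m then (exists_jc m h.1 z h.2).choose else 0

theorem jc_hF {m : ℕ} (hm : m ≠ 0) {z : ℤ} (hz : 4 * z.natAbs ∣ m) {n : ℕ} (hn : n.Coprime m) :
    jc m z (hF m n) = jv z n := by
  unfold jc
  rw [dif_pos ⟨hm, hz⟩]
  exact (exists_jc m hm z hz).choose_spec n hn

theorem jc_prime {m : ℕ} (hm : m ≠ 0) {z : ℤ} (hz : 4 * z.natAbs ∣ m) {p : ℕ} (hp : p.Prime)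
    (hpm : p.Coprime m) : jc m z (hF m p) = ch ((z : ℤ) : ZMod p) := by
  rw [jc_hF hm hz hpm, jv_prime hp]
  intro h
  rw [ZMod.intCast_zmod_eq_zero_iff_dvd, Int.natCast_dvd] at h
  have h1 : p ∣ m := h.trans ((Dvd.intro_left 4 rfl).trans hz)
  exact (Nat.Prime.coprime_iff_not_dvd hp).1 hpm h1

/-- the character of `-1` -/
theorem jv_neg_one {p : ℕ} (hp : p.Prime) (h2 : p ≠ 2) : jv (-1) p = vm p := by
  have ho := hp.odd_of_ne_two h2
  unfold jv vm
  rw [jacobiSym.at_neg_one ho]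
  by_cases h : p % 4 = 1
  · rw [if_pos h, if_pos (ZMod.χ₄_nat_one_mod_four h)]
  · have h3 : p % 4 = 3 := by
      rcases ho with ⟨k, hk⟩
      omega
    rw [if_neg h, ZMod.χ₄_nat_three_mod_four h3, if_neg (by norm_num)]

/-- every class contains a number prime to `m` -/
theorem hF_surj {m : ℕ} (hm : m ≠ 0) (x : Fm m) : ∃ n : ℕ, n.Coprime m ∧ n < m ∧ hF m n = x := by
  have : NeZero m := ⟨hm⟩
  obtain ⟨u, rfl⟩ := mkF_surj x
  refine ⟨(u : ZMod m).val, ZMod.val_coe_unit_coprime u, ZMod.val_lt _, ?_⟩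
  rw [hF_pos (ZMod.val_coe_unit_coprime u)]
  congr 1
  ext
  rw [ZMod.coe_unitOfCoprime, ZMod.natCast_val, ZMod.cast_id]

/-- the residue class determines the class -/
theorem hF_mod {m n : ℕ} (hn : n.Coprime m) : hF m (n % m) = hF m n := by
  rw [hF_pos hn, hF_pos (cop_mod.2 hn)]
  congr 1
  ext
  rw [ZMod.coe_unitOfCoprime, ZMod.coe_unitOfCoprime, ZMod.natCast_mod]

end Q44.BN
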