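import Pool.Agent.H68.L.R_pool_sql_team_seeded_3997aac3.Q44.BN.Chr

/-!
# The vector space of the square classes supported on a finite set of primes
-/

set_option autoImplicit false

open scoped Classical

namespace Q44.BN

open Finset
open Q44.TI (pd ch ch_zero ch_mul ch_pd dvd_pd_iff pd_pos not_dvd_pd sqf_prod nz_of)

theorem two_cases : ∀ x : ZMod 2, x = 0 ∨ x = 1 := by decide
theorem two_eq : ∀ x y : ZMod 2, (x = 0 ↔ y = 0) → x = y := by decide

/-- the vector space -/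
abbrev GG (T : Finset ℕ) : Type := (T → ZMod 2) × ZMod 2

/-- the support -/
noncomputable def JJ {T : Finset ℕ} (g : GG T) : Finset ℕ :=
  (univ.filter fun t : T => g.1 t ≠ 0).image Subtype.val

/-- the sign -/
def sgn (x : ZMod 2) : ℤ := if x = 0 then 1 else -1

/-- the integer -/
noncomputable def UU {T : Finset ℕ} (g : GG T) : ℤ := sgn g.2 * pd (JJ g)

variable {T : Finset ℕ}

theorem mem_JJ {g : GG T} {p : ℕ} : p ∈ JJ g ↔ ∃ h : p ∈ T, g.1 ⟨p, h⟩ ≠ 0 := by
  unfold JJ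
  rw [mem_image]
  constructor
  · rintro ⟨t, ht, rfl⟩
    exact ⟨t.2, (mem_filter.1 ht).2⟩
  · rintro ⟨h, hg⟩
    exact ⟨⟨p, h⟩, mem_filter.2 ⟨mem_univ _, hg⟩, rfl⟩

theorem JJ_sub (g : GG T) : JJ g ⊆ T := fun _ hp => (mem_JJ.1 hp).1

theorem JJ_prime (hT : ∀ p ∈ T, p.Prime) (g : GG T) : ∀ p ∈ JJ g, p.Prime := fun p hp =>
  hT p (JJ_sub g hp)

theorem pd_JJ (g : GG T) : pd (JJ g) = ∏ t : T, if g.1 t = 0 then (1 : ℤ) else t := by
  unfold pd JJ
  rw [Finset.prod_image fun x _ y _ h => Subtype.ext h, Nat.cast_prod, Finset.prod_filter]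
  refine prod_congr rfl fun t _ => ?_
  by_cases h : g.1 t = 0
  · rw [if_pos h, if_neg (not_not.2 h)]
  · rw [if_neg h, if_pos h]

theorem sgn_add (x y : ZMod 2) : sgn (x + y) = sgn x * sgn y := by
  revert x y
  decide

theorem sgn_ne (x : ZMod 2) : sgn x ≠ 0 := by
  revert x
  decide

theorem sgn_abs (x : ZMod 2) : (sgn x).natAbs = 1 := by
  revert x
  decide

/-- the product -/
theorem UU_add (hT : ∀ p ∈ T, p.Prime) (g g' : GG T) : ∃ s : ℤ, s ≠ 0 ∧
    (∀ p : ℕ, p.Prime → (p : ℤ) ∣ s → p ∈ T) ∧ UU g * UU g' = UU (g + g') * s ^ 2 := by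
  refine ⟨pd (JJ g ∩ JJ g'), ?_, ?_, ?_⟩
  · exact (pd_pos fun l hl => JJ_prime hT g l (mem_inter.1 hl).1).ne'
  · intro p hp h
    exact JJ_sub g (mem_inter.1 ((dvd_pd_iff hp fun l hl => JJ_prime hT g l
      (mem_inter.1 hl).1).1 h)).1
  · have e1 : pd (JJ g ∩ JJ g') = ∏ t : T, if g.1 t = 0 ∨ g'.1 t = 0 then (1 : ℤ) else t := by
      have : JJ g ∩ JJ g' = (univ.filter fun t : T => g.1 t ≠ 0 ∧ g'.1 t ≠ 0).image
          Subtype.val := by
        ext p
        rw [mem_inter, mem_JJ, mem_JJ, mem_image]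
        constructor
        · rintro ⟨⟨h1, h2⟩, ⟨h3, h4⟩⟩
          exact ⟨⟨p, h1⟩, mem_filter.2 ⟨mem_univ _, h2, h4⟩, rfl⟩
        · rintro ⟨t, ht, rfl⟩
          exact ⟨⟨t.2, (mem_filter.1 ht).2.1⟩, ⟨t.2, (mem_filter.1 ht).2.2⟩⟩
      rw [this]
      unfold pd
      rw [Finset.prod_image fun x _ y _ h => Subtype.ext h, Nat.cast_prod, Finset.prod_filter]
      refine prod_congr rfl fun t _ => ?_
      by_cases h : g.1 t = 0 ∨ g'.1 t = 0
      · rw [if_pos h, if_neg]
        rintro ⟨h1, h2⟩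
        rcases h with h | h
        · exact h1 h
        · exact h2 h
      · rw [if_neg h, if_pos]
        exact not_or.1 h
    unfold UU
    rw [Prod.snd_add, sgn_add, e1, pd_JJ, pd_JJ, pd_JJ]
    have e2 : (∏ t : T, if g.1 t = 0 then (1 : ℤ) else t) *
        (∏ t : T, if g'.1 t = 0 then (1 : ℤ) else t) =
        (∏ t : T, if (g + g').1 t = 0 then (1 : ℤ) else t) *
          (∏ t : T, if g.1 t = 0 ∨ g'.1 t = 0 then (1 : ℤ) else t) ^ 2 := by
      rw [← prod_pow, ← prod_mul_distrib, ← prod_mul_distrib]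
      refine prod_congr rfl fun t _ => ?_
      rw [Prod.fst_add, Pi.add_apply]
      rcases two_cases (g.1 t) with h | h <;> rcases two_cases (g'.1 t) with h' | h' <;>
        rw [h, h']
      · simp
      · simp
      · simp
      · have h2 : (1 : ZMod 2) + 1 = 0 := by decide
        simp only [h2, one_ne_zero, if_false, or_self, if_true, one_mul]
        ring
    linear_combination sgn g.2 * sgn g'.2 * e2

theorem UU_zero : UU (0 : GG T) = 1 := by
  unfold UU
  rw [pd_JJ]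
  simp [sgn]

theorem UU_sqf (hT : ∀ p ∈ T, p.Prime) (g : GG T) : Squarefree (UU g) := by
  rw [← Int.squarefree_natAbs]
  unfold UU
  rw [Int.natAbs_mul, sgn_abs, one_mul]
  unfold pd
  rw [Int.natAbs_natCast]
  exact sqf_prod (JJ_prime hT g)

theorem UU_ne (hT : ∀ p ∈ T, p.Prime) (g : GG T) : UU g ≠ 0 := (UU_sqf hT g).ne_zero

theorem sgn_dvd (x : ZMod 2) (a b : ℤ) : a ∣ sgn x * b ↔ a ∣ b := by
  unfold sgn
  by_cases h : x = 0
  · rw [if_pos h, one_mul]
  · rw [if_neg h, neg_one_mul, dvd_neg]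

theorem UU_dvd (hT : ∀ p ∈ T, p.Prime) (g : GG T) {p : ℕ} (hp : p.Prime) :
    (p : ℤ) ∣ UU g ↔ p ∈ JJ g := by
  unfold UU
  rw [sgn_dvd, dvd_pd_iff hp (JJ_prime hT g)]

theorem UU_dvd' (hT : ∀ p ∈ T, p.Prime) (g : GG T) {p : ℕ} (hp : p.Prime)
    (h : (p : ℤ) ∣ UU g) : p ∈ T := JJ_sub g ((UU_dvd hT g hp).1 h)

theorem UU_pos (hT : ∀ p ∈ T, p.Prime) (g : GG T) : 0 < UU g ↔ g.2 = 0 := by
  have h := pd_pos (JJ_prime hT g)
  unfold UU sgn
  by_cases h0 : g.2 = 0
  · rw [if_pos h0, one_mul]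
    exact ⟨fun _ => h0, fun _ => h⟩
  · rw [if_neg h0]
    constructor
    · intro h1
      linarith
    · intro h1
      exact absurd h1 h0

/-- the integer determines the vector -/
theorem UU_inj (hT : ∀ p ∈ T, p.Prime) {g g' : GG T} (h : UU g = UU g') : g = g' := by
  refine Prod.ext (funext fun t => ?_) ?_
  · apply two_eq
    have h1 := UU_dvd hT g (hT t t.2)
    have h2 := UU_dvd hT g' (hT t t.2)
    rw [h] at h1
    rw [h1, mem_JJ, mem_JJ] at h2
    constructor
    · intro h3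
      by_contra h4
      obtain ⟨h6, h5⟩ := h2.2 ⟨t.2, h4⟩
      exact h5 h3
    · intro h3
      by_contra h4
      obtain ⟨h6, h5⟩ := h2.1 ⟨t.2, h4⟩
      exact h5 h3
  · apply two_eq
    rw [← UU_pos hT, ← UU_pos hT, h]

/-- squarefree integers with a square product are equal -/
theorem sqf_eq {u v : ℤ} (hu : Squarefree u) (hv : Squarefree v) (h : IsSquare (u * v)) :
    u = v := by
  obtain ⟨s, hs⟩ := h
  have hu0 := hu.ne_zero
  have hv0 := hv.ne_zero
  have key : ∀ u v : ℤ, Squarefree u → Squarefree v → u * v = s * s → u ∣ v := by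
    intro u v hu hv hs
    have h1 : u ∣ s * s := ⟨v, hs.symm⟩
    have h2 : u ∣ s := by
      rw [← sq] at h1
      exact (hu.dvd_pow_iff_dvd two_ne_zero).1 h1
    obtain ⟨w, rfl⟩ := h2
    have hu0 := hu.ne_zero
    refine ⟨w * w, ?_⟩
    apply mul_left_cancel₀ hu0
    rw [hs]
    ring
  have h1 := key u v hu hv hs
  have h2 := key v u hv hu (by rw [mul_comm]; exact hs)
  have h3 : u.natAbs = v.natAbs := Nat.dvd_antisymm (Int.natAbs_dvd_natAbs.2 h1)
    (Int.natAbs_dvd_natAbs.2 h2)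
  rcases Int.natAbs_eq_natAbs_iff.1 h3 with h4 | h4
  · exact h4
  · exfalso
    rw [h4] at hs
    have h5 : 0 < v * v := mul_self_pos.2 hv0
    nlinarith [mul_self_nonneg s]

theorem UU_sq_eq (hT : ∀ p ∈ T, p.Prime) {g g' : GG T} (h : IsSquare (UU g * UU g')) : g = g' :=
  UU_inj hT (sqf_eq (UU_sqf hT g) (UU_sqf hT g') h)

theorem UU_sq_zero (hT : ∀ p ∈ T, p.Prime) {g : GG T} (h : IsSquare (UU g)) : g = 0 :=
  UU_sq_eq hT (by rw [UU_zero, mul_one]; exact h)

/-- every squarefree integer supported on `T` is obtained -/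
theorem UU_surj (hT : ∀ p ∈ T, p.Prime) {u : ℤ} (hu : Squarefree u)
    (h : ∀ p : ℕ, p.Prime → (p : ℤ) ∣ u → p ∈ T) : ∃ g : GG T, UU g = u := by
  set g : GG T := (fun t => if ((t : ℕ) : ℤ) ∣ u then 1 else 0, if 0 < u then 0 else 1) with hg
  refine ⟨g, ?_⟩
  have hu0 := hu.ne_zero
  have hn : Squarefree u.natAbs := Int.squarefree_natAbs.2 hu
  have h1 : pd (JJ g) = u.natAbs := by
    have e1 : JJ g = u.natAbs.primeFactors := by
      ext p
      rw [mem_JJ, Nat.mem_primeFactors]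
      constructor
      · rintro ⟨hp, hg1⟩
        refine ⟨hT p hp, ?_, Int.natAbs_ne_zero.2 hu0⟩
        by_contra h2
        apply hg1
        rw [hg]
        simp only
        rw [if_neg fun h3 => h2 (Int.natCast_dvd.1 h3)]
      · rintro ⟨hp, hd, -⟩
        have hd' := Int.natCast_dvd.2 hd
        refine ⟨h p hp hd', ?_⟩
        rw [hg]
        simp only
        rw [if_pos hd']
        exact one_ne_zero
    rw [e1]
    unfold pd
    rw [Nat.prod_primeFactors_of_squarefree hn]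
  unfold UU
  rw [h1]
  unfold sgn
  by_cases h2 : 0 < u
  · have h3 : g.2 = 0 := by
      rw [hg]
      simp only
      rw [if_pos h2]
    rw [if_pos h3, one_mul]
    exact Int.natAbs_of_nonneg h2.le
  · have h3 : g.2 ≠ 0 := by
      rw [hg]
      simp only
      rw [if_neg h2]
      exact one_ne_zero
    rw [if_neg h3]
    omega

end Q44.BN
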